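import Pool.Agent.Helper1.T1.Goals2

/-!
PROJECT T1, packet NEFA2 (helper57): the choice of `p` and `s`.
-/

set_option autoImplicit false

namespace Pool.Agent.Helper57.T1.NEFA2

open Filter

lemma ev {a b : ℝ} (ha : 0 < a) : ∀ᶠ s : ℕ in atTop, b < (s : ℝ) * a := by
  have h1 : Tendsto (fun s : ℕ => (s : ℝ) * a) atTop atTop :=
    Tendsto.atTop_mul_const ha tendsto_natCast_atTop_atTop
  exact h1.eventually_gt_atTop b

theorem t : Pool.Agent.Helper1.T1.S_NEFA2 := by
  intro c k d W H X D C0 hk hpos hD hDD hkl hY hC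
  obtain ⟨p, hp⟩ : ∃ p : ℕ, (D * C0 + 1) < (p : ℝ) * (∑ l, X l - D * d) :=
    (ev (sub_pos.2 hY)).exists
  have hp1 : 1 ≤ p := by
    rcases Nat.eq_zero_or_pos p with h | h
    · exfalso
      rw [h] at hp
      simp at hp
      have := mul_nonneg hD.le hC
      linarith
    · exact h
  have e1 : ∀ᶠ s : ℕ in atTop, (C0 + p * d) ^ 2 < (s : ℝ) * 2 := ev (by norm_num)
  have e2 : ∀ᶠ s : ℕ in atTop, ∀ l, (C0 + p * d) < (s : ℝ) * (k * W l - D) :=
    eventually_all.2 fun l => ev (by have := (hkl l).2; linarith)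
  have e3 : ∀ᶠ s : ℕ in atTop, ∀ l, (k : ℝ) * p * X l < (s : ℝ) * (W l * (D - k * H l)) :=
    eventually_all.2 fun l => ev (mul_pos (hpos l).1 (by have := (hkl l).1; linarith))
  obtain ⟨s, h1, h2, h3, hs⟩ := (e1.and (e2.and (e3.and (eventually_ge_atTop 1)))).exists
  refine ⟨p, s, hp1, hs, ?_⟩
  intro d' hd1 hd2
  have hs' : (1 : ℝ) ≤ s := by exact_mod_cast hs
  have hk' : (1 : ℝ) ≤ k := by exact_mod_cast hk
  have hk0 : (0 : ℝ) < k := by linarith
  have hd0 : (0 : ℝ) < d' := lt_of_lt_of_le (mul_pos (by linarith) hD) hd1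
  have hd1' : 1 ≤ d' := by
    have : (0 : ℕ) < d' := by exact_mod_cast hd0
    exact this
  have ht : (0 : ℝ) < (d' : ℝ) / k := div_pos hd0 hk0
  refine ⟨hd1', ?_, ?_⟩
  · have hsum : (s : ℝ) ^ 2 * D ^ 2 + 2 * s * p * ∑ l, X l ≤
        ∑ l, ((s * W l + p * X l / H l)) ^ 2 * (H l / W l) := by
      rw [hDD, Finset.mul_sum, Finset.mul_sum, ← Finset.sum_add_distrib]
      apply Finset.sum_le_sum
      intro l _
      obtain ⟨hW, hH, hX⟩ := hpos l
      have e : (s * W l + p * X l / H l) ^ 2 * (H l / W l) =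
          (s : ℝ) ^ 2 * (W l * H l) + 2 * s * p * X l + (p * X l) ^ 2 / (W l * H l) := by
        field_simp
        ring
      rw [e]
      have : 0 ≤ (p * X l) ^ 2 / (W l * H l) := by positivity
      linarith
    have hd2' : (d' : ℝ) ^ 2 ≤ (s * D + C0 + p * d) ^ 2 := by
      apply pow_le_pow_left₀ hd0.le hd2
    have hlt : (d' : ℝ) ^ 2 < ∑ l, ((s * W l + p * X l / H l)) ^ 2 * (H l / W l) := by
      have hmul : (s : ℝ) * 1 ≤ s * (p * (∑ l, X l - D * d) - D * C0) := by
        apply mul_le_mul_of_nonneg_left _ (by linarith)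
        linarith
      nlinarith [hsum, hd2', h1, hmul]
    have e : ∑ l, ((s * W l + p * X l / H l) / ((d' : ℝ) / k)) ^ 2 * (H l / W l) =
        (∑ l, ((s * W l + p * X l / H l)) ^ 2 * (H l / W l)) / ((d' : ℝ) / k) ^ 2 := by
      rw [Finset.sum_div]
      apply Finset.sum_congr rfl
      intro l _
      rw [div_pow]
      ring
    rw [e, lt_div_iff₀ (by positivity)]
    have e' : (k : ℝ) ^ 2 * ((d' : ℝ) / k) ^ 2 = (d' : ℝ) ^ 2 := by
      field_simp
    rw [e']
    exact hlt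
  · intro l
    obtain ⟨hW, hH, hX⟩ := hpos l
    have hpX : 0 ≤ p * X l / H l := by positivity
    constructor
    · rw [lt_div_iff₀ ht, one_mul, div_lt_iff₀ hk0]
      have := h2 l
      have h5 : 0 ≤ p * X l / H l * k := by positivity
      nlinarith
    · rw [div_lt_div_iff₀ ht hH]
      have := h3 l
      have e : (s * W l + p * X l / H l) * H l = s * W l * H l + p * X l := by
        field_simp
      rw [e, ← mul_lt_mul_iff_left₀ hk0]
      have e2 : W l * ((d' : ℝ) / k) * k = W l * d' := by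
        field_simp
      rw [e2]
      have h6 : W l * (s * D) ≤ W l * d' := mul_le_mul_of_nonneg_left hd1 hW.le
      nlinarith

end Pool.Agent.Helper57.T1.NEFA2
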